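import Mathlib

set_option autoImplicit false

namespace Pool.Agent.H33.StrongBad

open Finset

/-- The sign of a Boolean. -/
noncomputable def sg (b : Bool) : ℝ := if b then 1 else -1

theorem sg_true : sg true = 1 := by simp [sg]

theorem sg_false : sg false = -1 := by simp [sg]

theorem sg_sq (b : Bool) : sg b * sg b = 1 := by cases b <;> simp [sg]

theorem abs_sg (b : Bool) : |sg b| = 1 := by cases b <;> simp [sg]

theorem sg_not (b : Bool) : sg (!b) = -sg b := by cases b <;> simp [sg]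

theorem sg_xor (a b : Bool) : sg (xor a b) = -(sg a * sg b) := by
  cases a <;> cases b <;> simp [sg]

/-- Inner product of two sign vectors. -/
noncomputable def ip {n : ℕ} (x y : Fin n → Bool) : ℝ := ∑ v, sg (x v) * sg (y v)

/-- The sum of the signs over a set of vertices. -/
noncomputable def fs {n : ℕ} (S : Finset (Fin n)) (y : Fin n → Bool) : ℝ := ∑ v ∈ S, sg (y v)

theorem ip_comp {n N : ℕ} (c : Fin n → Fin N) (e : Fin N → Bool) (y : Fin n → Bool) :
    ip (fun v => e (c v)) y = ∑ i, sg (e i) * fs (univ.filter fun v => c v = i) y := by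
  unfold ip fs
  rw [← Finset.sum_fiberwise univ c]
  apply Finset.sum_congr rfl
  intro i _
  rw [Finset.mul_sum]
  apply Finset.sum_congr rfl
  intro v hv
  have h := (Finset.mem_filter.mp hv).2
  show sg (e (c v)) * sg (y v) = _
  rw [h]

theorem abs_fs_le {n : ℕ} (S : Finset (Fin n)) (y : Fin n → Bool) : |fs S y| ≤ S.card := by
  unfold fs
  refine (Finset.abs_sum_le_sum_abs _ _).trans ?_
  simp [abs_sg]

/-! ### Chernoff bound -/

theorem sum_exp {N : ℕ} (s : Fin N → ℝ) :
    ∑ e : Fin N → Bool, Real.exp (∑ i, sg (e i) * s i) =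
      ∏ i, (Real.exp (s i) + Real.exp (-s i)) := by
  have h : ∀ i : Fin N, Real.exp (s i) + Real.exp (-s i) = ∑ b : Bool, Real.exp (sg b * s i) := by
    intro i
    rw [Fintype.sum_bool, sg_true, sg_false, one_mul, neg_one_mul]
  rw [Finset.prod_congr rfl (fun i _ => h i), Finset.prod_univ_sum, Fintype.piFinset_univ]
  apply Finset.sum_congr rfl
  intro e _
  rw [Real.exp_sum]

theorem chernoff_one {N : ℕ} (s : Fin N → ℝ) (Q a : ℝ) (hQ : 0 < Q) (ha : 0 ≤ a)
    (hs : ∑ i, s i ^ 2 ≤ Q) :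
    ((univ.filter fun e : Fin N → Bool => a ≤ ∑ i, sg (e i) * s i).card : ℝ) ≤
      2 ^ N * Real.exp (-(a ^ 2 / (2 * Q))) := by
  set l : ℝ := a / Q with hl
  have hl0 : 0 ≤ l := div_nonneg ha hQ.le
  have h1 : ((univ.filter fun e : Fin N → Bool => a ≤ ∑ i, sg (e i) * s i).card : ℝ) ≤
      ∑ e : Fin N → Bool, Real.exp (∑ i, sg (e i) * (l * s i)) * Real.exp (-(l * a)) := by
    rw [Finset.card_eq_sum_ones, Nat.cast_sum]
    refine le_trans (Finset.sum_le_sum (g := fun e : Fin N → Bool =>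
      Real.exp (∑ i, sg (e i) * (l * s i)) * Real.exp (-(l * a))) ?_)
      (Finset.sum_le_sum_of_subset_of_nonneg (Finset.filter_subset _ _)
        (fun _ _ _ => by positivity))
    intro e he
    rw [Finset.mem_filter] at he
    rw [← Real.exp_add, Nat.cast_one]
    apply Real.one_le_exp
    have : ∑ i, sg (e i) * (l * s i) = l * ∑ i, sg (e i) * s i := by
      rw [Finset.mul_sum]; apply Finset.sum_congr rfl; intro i _; ring
    rw [this]
    nlinarith [mul_le_mul_of_nonneg_left he.2 hl0]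
  rw [← Finset.sum_mul, sum_exp] at h1
  refine h1.trans ?_
  have h2 : ∏ i, (Real.exp (l * s i) + Real.exp (-(l * s i))) ≤
      ∏ i, (2 * Real.exp ((l * s i) ^ 2 / 2)) := by
    apply Finset.prod_le_prod
    · intro i _; positivity
    · intro i _
      have := Real.cosh_le_exp_half_sq (l * s i)
      rw [Real.cosh_eq] at this
      linarith
  have h3 : ∏ i : Fin N, (2 * Real.exp ((l * s i) ^ 2 / 2)) =
      2 ^ N * Real.exp (∑ i, (l * s i) ^ 2 / 2) := by
    rw [Finset.prod_mul_distrib, Finset.prod_const, Finset.card_univ, Fintype.card_fin,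
      Real.exp_sum]
  have h4 : ∑ i, (l * s i) ^ 2 / 2 ≤ l ^ 2 * Q / 2 := by
    have : ∑ i, (l * s i) ^ 2 / 2 = l ^ 2 / 2 * ∑ i, s i ^ 2 := by
      rw [Finset.mul_sum]; apply Finset.sum_congr rfl; intro i _; ring
    rw [this]
    nlinarith [mul_le_mul_of_nonneg_left hs (by positivity : (0:ℝ) ≤ l ^ 2 / 2)]
  calc (∏ i, (Real.exp (l * s i) + Real.exp (-(l * s i)))) * Real.exp (-(l * a))
      ≤ (2 ^ N * Real.exp (l ^ 2 * Q / 2)) * Real.exp (-(l * a)) := by
        apply mul_le_mul_of_nonneg_right _ (Real.exp_pos _).le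
        refine h2.trans ?_
        rw [h3]
        apply mul_le_mul_of_nonneg_left _ (by positivity)
        exact Real.exp_le_exp.mpr h4
    _ = 2 ^ N * Real.exp (-(a ^ 2 / (2 * Q))) := by
        rw [mul_assoc, ← Real.exp_add]
        congr 2
        rw [hl]
        field_simp
        ring

theorem chernoff {N : ℕ} (s : Fin N → ℝ) (Q a : ℝ) (hQ : 0 < Q) (ha : 0 ≤ a)
    (hs : ∑ i, s i ^ 2 ≤ Q) :
    ((univ.filter fun e : Fin N → Bool => a ≤ |∑ i, sg (e i) * s i|).card : ℝ) ≤
      2 * (2 ^ N * Real.exp (-(a ^ 2 / (2 * Q)))) := by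
  have h1 := chernoff_one s Q a hQ ha hs
  have h2 := chernoff_one (fun i => -s i) Q a hQ ha (by simpa using hs)
  have h3 : (univ.filter fun e : Fin N → Bool => a ≤ |∑ i, sg (e i) * s i|) ⊆
      (univ.filter fun e : Fin N → Bool => a ≤ ∑ i, sg (e i) * s i) ∪
      (univ.filter fun e : Fin N → Bool => a ≤ ∑ i, sg (e i) * (-s i)) := by
    intro e he
    rw [Finset.mem_filter] at he
    rw [Finset.mem_union, Finset.mem_filter, Finset.mem_filter]
    rcases le_abs.mp he.2 with h | h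
    · left; exact ⟨Finset.mem_univ _, h⟩
    · right
      refine ⟨Finset.mem_univ _, ?_⟩
      have : ∑ i, sg (e i) * (-s i) = -∑ i, sg (e i) * s i := by
        rw [← Finset.sum_neg_distrib]; apply Finset.sum_congr rfl; intro i _; ring
      rw [this]; exact h
  have h4 : ((univ.filter fun e : Fin N → Bool => a ≤ |∑ i, sg (e i) * s i|).card : ℝ) ≤
      ((univ.filter fun e : Fin N → Bool => a ≤ ∑ i, sg (e i) * s i).card : ℝ) +
      ((univ.filter fun e : Fin N → Bool => a ≤ ∑ i, sg (e i) * (-s i)).card : ℝ) := by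
    exact_mod_cast (Finset.card_le_card h3).trans (Finset.card_union_le _ _)
  linarith

/-! ### The first absolute moment -/

/-- Flip the value at one vertex. -/
def flip {n : ℕ} (v : Fin n) (y : Fin n → Bool) : Fin n → Bool := Function.update y v (!y v)

theorem flip_flip {n : ℕ} (v : Fin n) : Function.Involutive (flip v) := by
  intro y
  funext w
  unfold flip
  by_cases h : w = v
  · subst h; simp
  · simp [Function.update_of_ne h]

theorem sum_flip {n : ℕ} (v : Fin n) (g : (Fin n → Bool) → ℝ) :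
    ∑ y, g (flip v y) = ∑ y, g y :=
  Equiv.sum_comp (flip_flip v).toPerm g

theorem sum_odd {n : ℕ} (v : Fin n) (g : (Fin n → Bool) → ℝ) (hg : ∀ y, g (flip v y) = g y) :
    ∑ y, sg (y v) * g y = 0 := by
  have h := sum_flip v (fun y => sg (y v) * g y)
  have h2 : ∑ y, sg ((flip v y) v) * g (flip v y) = -∑ y, sg (y v) * g y := by
    rw [← Finset.sum_neg_distrib]
    apply Finset.sum_congr rfl
    intro y _
    rw [hg y]
    have : (flip v y) v = !y v := by simp [flip]
    rw [this, sg_not]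
    ring
  rw [h2] at h
  linarith

theorem fs_flip {n : ℕ} (S : Finset (Fin n)) (v : Fin n) (hv : v ∉ S) (y : Fin n → Bool) :
    fs S (flip v y) = fs S y := by
  unfold fs
  apply Finset.sum_congr rfl
  intro w hw
  have : w ≠ v := fun h => hv (h ▸ hw)
  simp [flip, Function.update_of_ne this]

theorem fs_insert {n : ℕ} (S : Finset (Fin n)) (v : Fin n) (hv : v ∉ S) (y : Fin n → Bool) :
    fs (insert v S) y = sg (y v) + fs S y := by
  unfold fs
  rw [Finset.sum_insert hv]

theorem card_fun (n : ℕ) : ((univ : Finset (Fin n → Bool)).card : ℝ) = 2 ^ n := by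
  simp

theorem moment2 {n : ℕ} (S : Finset (Fin n)) : ∑ y, fs S y ^ 2 = S.card * 2 ^ n := by
  induction S using Finset.induction_on with
  | empty => simp [fs]
  | insert v S hv ih =>
    have h : ∀ y, fs (insert v S) y ^ 2 = 1 + 2 * (sg (y v) * fs S y) + fs S y ^ 2 := by
      intro y
      rw [fs_insert S v hv]
      have := sg_sq (y v)
      nlinarith
    rw [Finset.sum_congr rfl (fun y _ => h y), Finset.sum_add_distrib, Finset.sum_add_distrib,
      ← Finset.mul_sum, sum_odd v (fs S) (fs_flip S v hv), ih, Finset.card_insert_of_notMem hv]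
    simp only [Finset.sum_const, nsmul_eq_mul, card_fun]
    push_cast
    ring

theorem moment4 {n : ℕ} (S : Finset (Fin n)) :
    ∑ y, fs S y ^ 4 ≤ 3 * (S.card : ℝ) ^ 2 * 2 ^ n := by
  induction S using Finset.induction_on with
  | empty => simp [fs]
  | insert v S hv ih =>
    have h : ∀ y, fs (insert v S) y ^ 4 = 1 + 4 * (sg (y v) * fs S y) + 6 * fs S y ^ 2 +
        4 * (sg (y v) * fs S y ^ 3) + fs S y ^ 4 := by
      intro y
      rw [fs_insert S v hv]
      have h1 := sg_sq (y v)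
      have h2 : sg (y v) ^ 2 = 1 := by rw [sq]; exact h1
      have h3 : sg (y v) ^ 3 = sg (y v) := by
        calc sg (y v) ^ 3 = sg (y v) ^ 2 * sg (y v) := by ring
          _ = sg (y v) := by rw [h2, one_mul]
      have h4 : sg (y v) ^ 4 = 1 := by
        calc sg (y v) ^ 4 = (sg (y v) ^ 2) ^ 2 := by ring
          _ = 1 := by rw [h2]; norm_num
      calc (sg (y v) + fs S y) ^ 4 = sg (y v) ^ 4 + 4 * (sg (y v) ^ 3 * fs S y) +
            6 * (sg (y v) ^ 2 * fs S y ^ 2) + 4 * (sg (y v) * fs S y ^ 3) + fs S y ^ 4 := by ring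
        _ = _ := by rw [h2, h3, h4]; ring
    rw [Finset.sum_congr rfl (fun y _ => h y), Finset.sum_add_distrib, Finset.sum_add_distrib,
      Finset.sum_add_distrib, Finset.sum_add_distrib, ← Finset.mul_sum, ← Finset.mul_sum,
      ← Finset.mul_sum, sum_odd v (fs S) (fs_flip S v hv),
      sum_odd v (fun y => fs S y ^ 3) (fun y => by rw [fs_flip S v hv]), moment2,
      Finset.card_insert_of_notMem hv]
    simp only [Finset.sum_const, nsmul_eq_mul, card_fun]
    push_cast
    nlinarith [pow_pos (by norm_num : (0:ℝ) < 2) n]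

theorem abs_lower (u : ℝ) : 3 * u ^ 2 - u ^ 4 ≤ 2 * |u| := by
  have h : ∀ w : ℝ, 0 ≤ w → 3 * w ^ 2 - w ^ 4 ≤ 2 * w := by
    intro w hw
    have : 0 ≤ w * ((w - 1) ^ 2 * (w + 2)) := by positivity
    nlinarith
  have h2 := h |u| (abs_nonneg u)
  rw [sq_abs] at h2
  have h3 : |u| ^ 4 = u ^ 4 := by
    calc |u| ^ 4 = (|u| ^ 2) ^ 2 := by ring
      _ = u ^ 4 := by rw [sq_abs]; ring
  rw [h3] at h2
  exact h2

/-- If `r ^ 2 ≤ 2 |S|` then the mean of `|fs S|` is at least `3 r / 8`. -/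
theorem moment1 {n : ℕ} (S : Finset (Fin n)) (r : ℝ) (hr : 0 ≤ r)
    (hS : r ^ 2 ≤ 2 * (S.card : ℝ)) : 3 / 8 * r * 2 ^ n ≤ ∑ y, |fs S y| := by
  rcases Nat.eq_zero_or_pos S.card with h0 | hpos
  · rw [h0] at hS
    have : r = 0 := by
      have : r ^ 2 ≤ 0 := by simpa using hS
      nlinarith
    rw [this]
    simp
    exact Finset.sum_nonneg (fun _ _ => abs_nonneg _)
  have hm : (0 : ℝ) < S.card := by exact_mod_cast hpos
  set l : ℝ := Real.sqrt (2 * S.card) with hl
  have hl2 : l ^ 2 = 2 * S.card := Real.sq_sqrt (by positivity)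
  have hlpos : 0 < l := Real.sqrt_pos.mpr (by positivity)
  have hrl : r ≤ l := by
    rw [hl]; exact Real.le_sqrt_of_sq_le hS
  have h1 : ∀ y, 3 * (fs S y ^ 2 / l) - fs S y ^ 4 / l ^ 3 ≤ 2 * |fs S y| := by
    intro y
    have := abs_lower (fs S y / l)
    rw [abs_div, abs_of_pos hlpos] at this
    have h2 := mul_le_mul_of_nonneg_right this hlpos.le
    calc 3 * (fs S y ^ 2 / l) - fs S y ^ 4 / l ^ 3 =
        (3 * (fs S y / l) ^ 2 - (fs S y / l) ^ 4) * l := by field_simp
      _ ≤ 2 * (|fs S y| / l) * l := h2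
      _ = 2 * |fs S y| := by field_simp
  have h2 : 3 * ((S.card * 2 ^ n : ℝ) / l) - (3 * (S.card : ℝ) ^ 2 * 2 ^ n) / l ^ 3 ≤
      2 * ∑ y, |fs S y| := by
    calc 3 * ((S.card * 2 ^ n : ℝ) / l) - (3 * (S.card : ℝ) ^ 2 * 2 ^ n) / l ^ 3
        ≤ 3 * ((∑ y, fs S y ^ 2) / l) - (∑ y, fs S y ^ 4) / l ^ 3 := by
          rw [moment2]
          have := div_le_div_of_nonneg_right (moment4 S) (by positivity : (0:ℝ) ≤ l ^ 3)
          linarith
      _ = ∑ y, (3 * (fs S y ^ 2 / l) - fs S y ^ 4 / l ^ 3) := by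
          rw [Finset.sum_sub_distrib, ← Finset.mul_sum, Finset.sum_div, Finset.sum_div]
      _ ≤ ∑ y, 2 * |fs S y| := Finset.sum_le_sum (fun y _ => h1 y)
      _ = 2 * ∑ y, |fs S y| := by rw [Finset.mul_sum]
  have h3 : 3 * ((S.card * 2 ^ n : ℝ) / l) - (3 * (S.card : ℝ) ^ 2 * 2 ^ n) / l ^ 3 =
      3 / 4 * l * 2 ^ n := by
    have hc : (S.card : ℝ) = l ^ 2 / 2 := by rw [hl2]; ring
    rw [hc]
    field_simp
    ring
  rw [h3] at h2
  have h4 : (0:ℝ) < 2 ^ n := by positivity
  nlinarith [mul_le_mul_of_nonneg_right hrl h4.le]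

end Pool.Agent.H33.StrongBad
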