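import Mathlib

set_option autoImplicit false

namespace Pool.Agent.H33.StrongBad

open Finset

/-- Many classes have at least half of the average size. -/
theorem many_classes {N : ℕ} (k t : ℕ) (hN : N = 2 * t + 1) (w : Fin N → ℕ)
    (hw : ∑ i, w i = k * N) (h8 : 8 ≤ k) (ht : 2 ≤ t)
    (hc : ∀ I : Finset (Fin N), I.card = t → ∑ i ∈ I, w i < k * t + k + 2 * t) :
    t + 1 ≤ (univ.filter fun i => k ≤ 2 * w i).card := by
  by_contra hcon
  push Not at hcon
  obtain ⟨I, hGI, hI⟩ := Finset.exists_superset_card_eq (s := univ.filter fun i => k ≤ 2 * w i)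
    (n := t) (by omega) (by rw [Fintype.card_fin]; omega)
  have h1 := hc I hI
  have h2 := Finset.sum_add_sum_compl I w
  have h3 : Iᶜ.card = t + 1 := by
    rw [Finset.card_compl, Fintype.card_fin, hI]; omega
  have h4 : ∑ i ∈ Iᶜ, 2 * w i ≤ ∑ _i ∈ Iᶜ, k := by
    apply Finset.sum_le_sum
    intro i hi
    rw [Finset.mem_compl] at hi
    by_contra hcon2
    push Not at hcon2
    exact hi (hGI (Finset.mem_filter.mpr ⟨Finset.mem_univ _, hcon2.le⟩))
  rw [Finset.sum_const, h3, ← Finset.mul_sum, smul_eq_mul] at h4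
  have hkN : k * N = k * (2 * t + 1) := by rw [hN]
  rw [hw, hkN] at h2
  nlinarith [Nat.mul_le_mul h8 ht]

theorem sum_sq_le_sq_sum' {ι : Type*} (s : Finset ι) (e : ι → ℝ) (he : ∀ i ∈ s, 0 ≤ e i) :
    ∑ i ∈ s, e i ^ 2 ≤ (∑ i ∈ s, e i) ^ 2 := by
  rw [sq (∑ i ∈ s, e i), Finset.sum_mul]
  apply Finset.sum_le_sum
  intro i hi
  rw [sq]
  exact mul_le_mul_of_nonneg_left (Finset.single_le_sum he hi) (he i hi)

/-- The sum of the squares of the class sizes. -/
theorem sum_sq {N : ℕ} (k t : ℕ) (hN : N = 2 * t + 1) (w : Fin N → ℕ)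
    (hw : ∑ i, w i = k * N) (hkt : k ^ 2 = t) (h8 : 8 ≤ k)
    (hc : ∀ I : Finset (Fin N), I.card = t → ∑ i ∈ I, w i < k * t + k + 2 * t) :
    ∑ i, (w i : ℝ) ^ 2 ≤ 80 * (t : ℝ) ^ 2 := by
  have htk : 8 * k ≤ t := by rw [← hkt]; nlinarith
  have ht2 : 64 ≤ t := by omega
  obtain ⟨I, hI, hmax⟩ := Finset.exists_max_image (Finset.powersetCard t (univ : Finset (Fin N)))
    (fun I => ∑ i ∈ I, w i)
    (Finset.powersetCard_nonempty.mpr (by rw [Finset.card_univ, Fintype.card_fin]; omega))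
  rw [Finset.mem_powersetCard] at hI
  have hIc := hI.2
  have hex : ∀ i ∈ I, ∀ j, j ∉ I → w j ≤ w i := by
    intro i hi j hj
    have hj' : j ∉ I.erase i := fun h => hj (Finset.mem_of_mem_erase h)
    have h1 := hmax (insert j (I.erase i)) (by
      rw [Finset.mem_powersetCard]
      refine ⟨Finset.subset_univ _, ?_⟩
      rw [Finset.card_insert_of_notMem hj', Finset.card_erase_of_mem hi]
      have : 0 < I.card := Finset.card_pos.mpr ⟨i, hi⟩
      omega)
    rw [Finset.sum_insert hj'] at h1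
    have h2 := Finset.add_sum_erase I w hi
    omega
  have h1 := hc I hIc
  have h2 := Finset.sum_add_sum_compl I w
  have hkN : k * N = k * (2 * t + 1) := by rw [hN]
  rw [hw, hkN] at h2
  have h3 : Iᶜ.card = t + 1 := by
    rw [Finset.card_compl, Fintype.card_fin, hIc]; omega
  -- outside
  have hout : ∀ j ∈ Iᶜ, w j ≤ k + 3 := by
    intro j hj
    rw [Finset.mem_compl] at hj
    have : ∑ _i ∈ I, w j ≤ ∑ i ∈ I, w i := Finset.sum_le_sum (fun i hi => hex i hi j hj)
    rw [Finset.sum_const, hIc, smul_eq_mul] at this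
    by_contra hcon
    push Not at hcon
    nlinarith
  -- inside
  have hin : ∀ i ∈ I, k - 3 ≤ w i := by
    intro i hi
    have : ∑ j ∈ Iᶜ, w j ≤ ∑ _j ∈ Iᶜ, w i :=
      Finset.sum_le_sum (fun j hj => hex i hi j (Finset.mem_compl.mp hj))
    rw [Finset.sum_const, h3, smul_eq_mul] at this
    by_contra hcon
    push Not at hcon
    have h4 : w i + 4 ≤ k := by omega
    nlinarith
  have hkR : (8 : ℝ) ≤ k := by exact_mod_cast h8
  have htR : (8 : ℝ) * k ≤ t := by exact_mod_cast htk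
  have hktR : (k : ℝ) ^ 2 = t := by exact_mod_cast hkt
  have hE : ∑ i ∈ I, ((w i : ℝ) - (k - 3)) ≤ 6 * t := by
    rw [Finset.sum_sub_distrib, Finset.sum_const, hIc, nsmul_eq_mul]
    have : (∑ i ∈ I, (w i : ℝ)) ≤ k * t + k + 2 * t := by exact_mod_cast h1.le
    nlinarith
  have hE0 : ∀ i ∈ I, 0 ≤ (w i : ℝ) - (k - 3) := by
    intro i hi
    have := hin i hi
    have : k ≤ w i + 3 := by omega
    have : (k : ℝ) ≤ w i + 3 := by exact_mod_cast this
    linarith
  have hE0' : 0 ≤ ∑ i ∈ I, ((w i : ℝ) - (k - 3)) := Finset.sum_nonneg hE0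
  have hsqI : ∑ i ∈ I, (w i : ℝ) ^ 2 ≤ 2 * t * (k - 3) ^ 2 + 72 * t ^ 2 := by
    have h5 : ∀ i ∈ I, (w i : ℝ) ^ 2 ≤ 2 * ((k : ℝ) - 3) ^ 2 + 2 * ((w i : ℝ) - (k - 3)) ^ 2 := by
      intro i _
      nlinarith [sq_nonneg ((w i : ℝ) - 2 * (k - 3))]
    refine (Finset.sum_le_sum h5).trans ?_
    rw [Finset.sum_add_distrib, Finset.sum_const, hIc, ← Finset.mul_sum, nsmul_eq_mul]
    have h6 := sum_sq_le_sq_sum' I (fun i => (w i : ℝ) - (k - 3)) hE0
    have h7 : (∑ i ∈ I, ((w i : ℝ) - (k - 3))) ^ 2 ≤ (6 * t) ^ 2 :=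
      pow_le_pow_left₀ hE0' hE 2
    nlinarith
  have hsqO : ∑ i ∈ Iᶜ, (w i : ℝ) ^ 2 ≤ (t + 1) * (k + 3) ^ 2 := by
    have h5 : ∀ i ∈ Iᶜ, (w i : ℝ) ^ 2 ≤ ((k : ℝ) + 3) ^ 2 := by
      intro i hi
      have : (w i : ℝ) ≤ k + 3 := by exact_mod_cast hout i hi
      exact pow_le_pow_left₀ (Nat.cast_nonneg _) this 2
    refine (Finset.sum_le_sum h5).trans ?_
    rw [Finset.sum_const, h3, nsmul_eq_mul]
    push_cast
    exact le_rfl
  have h8 := Finset.sum_add_sum_compl I (fun i => (w i : ℝ) ^ 2)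
  rw [← h8]
  have h9 : (64 : ℝ) ≤ t := by exact_mod_cast ht2
  have h10 : ((t : ℝ) + 1) * (k + 3) ^ 2 ≤ 4 * t ^ 2 := by
    have h11 : ((k : ℝ) + 3) ^ 2 ≤ 2 * t := by nlinarith
    have h12 : (t : ℝ) + 1 ≤ 2 * t := by linarith
    calc ((t : ℝ) + 1) * (k + 3) ^ 2 ≤ (2 * t) * (2 * t) :=
          mul_le_mul h12 h11 (by positivity) (by positivity)
      _ = 4 * t ^ 2 := by ring
  have h13 : 2 * (t : ℝ) * (k - 3) ^ 2 ≤ 2 * t ^ 2 := by
    have h14 : ((k : ℝ) - 3) ^ 2 ≤ t := by nlinarith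
    nlinarith
  have h15 : (0 : ℝ) ≤ (t : ℝ) ^ 2 := sq_nonneg _
  linarith

/-- The number of `t`-sets which contain a given point does not depend on the point. -/
theorem card_contain {N : ℕ} (t : ℕ) (i j : Fin N) :
    ((Finset.powersetCard t (univ : Finset (Fin N))).filter fun I => i ∈ I).card ≤
    ((Finset.powersetCard t (univ : Finset (Fin N))).filter fun I => j ∈ I).card := by
  apply Finset.card_le_card_of_injOn (fun I => I.map (Equiv.swap i j).toEmbedding)
  · intro I hI
    rw [Finset.mem_coe, Finset.mem_filter, Finset.mem_powersetCard] at hI ⊢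
    refine ⟨⟨Finset.subset_univ _, by rw [Finset.card_map]; exact hI.1.2⟩, ?_⟩
    rw [Finset.mem_map]
    exact ⟨i, hI.2, by simp⟩
  · intro I _ J _ h
    exact Finset.map_injective _ h

theorem sum_over_sets {N : ℕ} (k t : ℕ) (w : Fin N → ℕ) (hw : ∑ i, w i = k * N) :
    ∑ I ∈ Finset.powersetCard t (univ : Finset (Fin N)), ∑ i ∈ I, w i =
      k * t * (Finset.powersetCard t (univ : Finset (Fin N))).card := by
  set P := Finset.powersetCard t (univ : Finset (Fin N)) with hP
  have key : ∀ w : Fin N → ℕ, ∑ I ∈ P, ∑ i ∈ I, w i =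
      ∑ i, w i * (P.filter fun I => i ∈ I).card := by
    intro w
    have h1 : ∀ I ∈ P, ∑ i ∈ I, w i = ∑ i, if i ∈ I then w i else 0 := by
      intro I _
      rw [← Finset.sum_filter]
      congr 1
      ext; simp
    rw [Finset.sum_congr rfl h1, Finset.sum_comm]
    apply Finset.sum_congr rfl
    intro i _
    rw [← Finset.sum_filter, Finset.sum_const, smul_eq_mul, mul_comm]
  rcases Nat.eq_zero_or_pos N with h0 | hpos
  · subst h0
    rw [key]
    simp only [Finset.univ_eq_empty, Finset.sum_empty]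
    rcases Nat.eq_zero_or_pos t with h | h
    · subst h; simp
    · have : P = ∅ := by
        rw [hP, Finset.powersetCard_eq_empty]
        simpa using h
      rw [this]; simp
  · let i0 : Fin N := ⟨0, hpos⟩
    have hconst : ∀ i, (P.filter fun I => i ∈ I).card = (P.filter fun I => i0 ∈ I).card :=
      fun i => le_antisymm (card_contain t i i0) (card_contain t i0 i)
    have h1 := key w
    have h2 := key (fun _ => 1)
    simp only [hconst] at h1 h2
    rw [← Finset.sum_mul] at h1 h2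
    have h3 : ∑ I ∈ P, ∑ _i ∈ I, 1 = t * P.card := by
      rw [Finset.sum_congr rfl (fun I hI => by
        rw [Finset.sum_const, smul_eq_mul, mul_one, (Finset.mem_powersetCard.mp hI).2])]
      rw [Finset.sum_const, smul_eq_mul, mul_comm]
    rw [h3] at h2
    simp only [Finset.sum_const, Finset.card_univ, Fintype.card_fin, smul_eq_mul, mul_one] at h2
    rw [h1, hw, mul_assoc, ← h2]
    ring

/-- A quarter of the `t`-sets have large weight. -/
theorem many_sets {N : ℕ} (k t : ℕ) (w : Fin N → ℕ)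
    (hw : ∑ i, w i = k * N) (hkt : k ≤ t) (ht : 0 < t)
    (hc : ∀ I : Finset (Fin N), I.card = t → ∑ i ∈ I, w i < k * t + k + 2 * t) :
    (Finset.powersetCard t (univ : Finset (Fin N))).card ≤
      4 * ((Finset.powersetCard t (univ : Finset (Fin N))).filter
        fun I => k * t ≤ ∑ i ∈ I, w i + t).card := by
  have hsum := sum_over_sets k t w hw
  set P := Finset.powersetCard t (univ : Finset (Fin N)) with hP
  set V := P.filter fun I => k * t ≤ ∑ i ∈ I, w i + t with hV
  have h1 : ∑ I ∈ P, (∑ i ∈ I, w i + t) ≤ V.card * (k * t + k + 3 * t) +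
      (P.card - V.card) * (k * t) := by
    rw [← Finset.sum_filter_add_sum_filter_not P (fun I => k * t ≤ ∑ i ∈ I, w i + t)]
    have h2 : (P.filter fun I => ¬ (k * t ≤ ∑ i ∈ I, w i + t)).card = P.card - V.card := by
      have := Finset.card_filter_add_card_filter_not (s := P)
        (fun I => k * t ≤ ∑ i ∈ I, w i + t)
      rw [← hV] at this
      omega
    apply Nat.add_le_add
    · refine (Finset.sum_le_card_nsmul _ _ (k * t + k + 3 * t) ?_).trans ?_
      · intro I hI
        have := hc I (Finset.mem_powersetCard.mp (Finset.mem_filter.mp hI).1).2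
        omega
      · rw [smul_eq_mul]
    · refine (Finset.sum_le_card_nsmul _ _ (k * t) ?_).trans ?_
      · intro I hI
        have := (Finset.mem_filter.mp hI).2
        omega
      · rw [smul_eq_mul, h2]
  rw [Finset.sum_add_distrib, hsum, Finset.sum_const, smul_eq_mul] at h1
  have h3 : V.card ≤ P.card := Finset.card_le_card (Finset.filter_subset _ _)
  obtain ⟨d, hd⟩ := Nat.exists_eq_add_of_le h3
  rw [hd] at h1 ⊢
  rw [Nat.add_sub_cancel_left] at h1
  by_contra hcon
  push Not at hcon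
  have h4 : 3 * V.card < d := by omega
  have h5 : (V.card + d) * t ≤ V.card * (k + 3 * t) := by nlinarith
  have h6 : V.card * (k + 3 * t) ≤ V.card * (4 * t) := Nat.mul_le_mul_left _ (by omega)
  nlinarith

theorem pow_le_choose (t : ℕ) : 2 ^ (2 * t + 1) ≤ (2 * t + 2) * (2 * t + 1).choose t := by
  rw [← Nat.sum_range_choose]
  have h : ∀ m ∈ Finset.range (2 * t + 1 + 1), (2 * t + 1).choose m ≤ (2 * t + 1).choose t := by
    intro m _
    have := Nat.choose_le_middle m (2 * t + 1)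
    have h2 : (2 * t + 1) / 2 = t := by omega
    rwa [h2] at this
  refine (Finset.sum_le_sum h).trans ?_
  rw [Finset.sum_const, Finset.card_range, smul_eq_mul]

end Pool.Agent.H33.StrongBad
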