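import Mathlib
import Pool.Agent.H33.StrongBad.Basic
import Pool.Agent.H33.StrongBad.Weights

set_option autoImplicit false

namespace Pool.Agent.H33.StrongBad

open Finset

/-- The decision list: the first vector `y` of the list for which `|ip x y|` is large decides. -/
def Win {n : ℕ} (a T : ℝ) : List (Fin n → Bool) → (Fin n → Bool) → Prop
  | [], _ => False
  | y :: L, x => T ≤ ip x y ∨ (|ip x y| < a ∧ Win a T L x)

theorem win_append {n : ℕ} (a T : ℝ) (L : List (Fin n → Bool)) (y x : Fin n → Bool)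
    (h : ∀ y' ∈ L, |ip x y'| < a) (hy : T ≤ ip x y) : Win a T (L ++ [y]) x := by
  induction L with
  | nil => exact Or.inl hy
  | cons z L ih =>
    exact Or.inr ⟨h z List.mem_cons_self, ih fun y' hy' => h y' (List.mem_cons_of_mem _ hy')⟩

theorem win_mono {n : ℕ} (a T : ℝ) (L : List (Fin n → Bool)) (y x : Fin n → Bool)
    (h : Win a T L x) : Win a T (L ++ [y]) x := by
  induction L with
  | nil => exact absurd h (by simp [Win])
  | cons z L ih =>
    rcases h with h | ⟨h1, h2⟩
    · exact Or.inl h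
    · exact Or.inr ⟨h1, ih h2⟩

theorem win_disjoint {n : ℕ} (a d T : ℝ) (hT : a + 2 * d = T) (hTd : d < T)
    (x x' : Fin n → Bool) (h : ∀ y, |ip x y + ip x' y| ≤ 2 * d)
    (L : List (Fin n → Bool)) (h1 : Win a T L x) (h2 : Win a T L x') : False := by
  induction L with
  | nil => exact h1
  | cons y L ih =>
    have hy := abs_le.mp (h y)
    rcases h1 with h1 | ⟨h1, h1'⟩
    · rcases h2 with h2 | ⟨h2, _⟩
      · linarith [hy.2]
      · have := abs_lt.mp h2
        linarith [hy.2, this.1]
    · rcases h2 with h2 | ⟨_, h2'⟩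
      · have := abs_lt.mp h1
        linarith [hy.2, this.1]
      · exact ih h1' h2'

theorem ip_add {n : ℕ} (x x' y : Fin n → Bool) :
    |ip x y + ip x' y| ≤ 2 * ((univ.filter fun v => x v = x' v).card : ℝ) := by
  unfold ip
  rw [← Finset.sum_add_distrib]
  refine (Finset.abs_sum_le_sum_abs _ _).trans ?_
  have h : ∀ v : Fin n, |sg (x v) * sg (y v) + sg (x' v) * sg (y v)| ≤
      if x v = x' v then 2 else 0 := by
    intro v
    cases x v <;> cases x' v <;> cases y v <;> simp [sg] <;> norm_num
  refine (Finset.sum_le_sum fun v _ => h v).trans ?_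
  rw [← Finset.sum_filter, Finset.sum_const, nsmul_eq_mul, mul_comm]

/-- The characteristic function of a set. -/
def ch {n : ℕ} (A : Finset (Fin n)) (v : Fin n) : Bool := decide (v ∈ A)

theorem card_agree {n : ℕ} (A B : Finset (Fin n)) :
    (univ.filter fun v => ch A v = ch B v).card + A.card + B.card = n + 2 * (A ∩ B).card := by
  have h1 : (univ.filter fun v => ch A v = ch B v) = (A ∩ B) ∪ (A ∪ B)ᶜ := by
    ext v
    simp only [ch, Finset.mem_filter, Finset.mem_univ, true_and, Finset.mem_union,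
      Finset.mem_inter, Finset.mem_compl, decide_eq_decide]
    tauto
  have h2 : Disjoint (A ∩ B) (A ∪ B)ᶜ := by
    rw [Finset.disjoint_left]
    intro v hv hv2
    rw [Finset.mem_compl] at hv2
    exact hv2 (Finset.mem_union_left _ (Finset.mem_inter.mp hv).1)
  rw [h1, Finset.card_union_of_disjoint h2, Finset.card_compl, Fintype.card_fin]
  have h3 := Finset.card_union_add_card_inter A B
  have h4 : (A ∪ B).card ≤ n := by
    simpa using Finset.card_le_univ (A ∪ B)
  omega

/-- Size of a colour class. -/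
def wt {n N : ℕ} (c : Fin n → Fin N) (i : Fin N) : ℕ := (univ.filter fun v => c v = i).card

theorem sum_wt {n N : ℕ} (c : Fin n → Fin N) : ∑ i, wt c i = n := by
  unfold wt
  rw [← Finset.card_eq_sum_card_fiberwise (s := univ) (t := univ) (f := c)
    (fun _ _ => Finset.mem_univ _)]
  simp

theorem card_union_classes {n N : ℕ} (c : Fin n → Fin N) (I : Finset (Fin N)) :
    (univ.filter fun v => c v ∈ I).card = ∑ i ∈ I, wt c i := by
  unfold wt
  rw [Finset.card_eq_sum_card_fiberwise (s := univ.filter fun v => c v ∈ I) (t := I) (f := c)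
    (fun v hv => (Finset.mem_filter.mp hv).2)]
  apply Finset.sum_congr rfl
  intro i hi
  congr 1
  ext v
  simp only [Finset.mem_filter, Finset.mem_univ, true_and]
  constructor
  · rintro ⟨_, h⟩; exact h
  · intro h; exact ⟨h ▸ hi, h⟩

/-! ### Orbits of the sign changes -/

/-- Change the signs on the classes. -/
def act {n N : ℕ} (c : Fin n → Fin N) (δ : Fin N → Bool) (y : Fin n → Bool) : Fin n → Bool :=
  fun v => xor (δ (c v)) (y v)

theorem act_act {n N : ℕ} (c : Fin n → Fin N) (δ : Fin N → Bool) (y : Fin n → Bool) :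
    act c δ (act c δ y) = y := by
  funext v
  unfold act
  cases δ (c v) <;> cases y v <;> rfl

theorem fs_act {n N : ℕ} (c : Fin n → Fin N) (δ : Fin N → Bool) (y : Fin n → Bool) (i : Fin N) :
    fs (univ.filter fun v => c v = i) (act c δ y) =
      -sg (δ i) * fs (univ.filter fun v => c v = i) y := by
  unfold fs act
  rw [Finset.mul_sum]
  apply Finset.sum_congr rfl
  intro v hv
  have h := (Finset.mem_filter.mp hv).2
  rw [sg_xor, h]
  ring

open Classical in
theorem orbit {n N : ℕ} (c : Fin n → Fin N) (T : ℝ) (R : Finset (Fin N → Bool)) :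
    (univ.filter fun y : Fin n → Bool =>
      T ≤ ∑ i, |fs (univ.filter fun v => c v = i) y|).card * R.card ≤
    2 ^ N * (univ.filter fun y : Fin n → Bool =>
      ∃ e ∈ R, T ≤ ip (fun v => e (c v)) y).card := by
  classical
  have h2N : 2 ^ N = (univ : Finset (Fin N → Bool)).card := by simp
  rw [h2N, ← Finset.card_product, ← Finset.card_product]
  let σ : (Fin n → Bool) → Fin N → Bool := fun y i =>
    decide (0 ≤ fs (univ.filter fun v => c v = i) y)
  have hσ : ∀ y i, sg (σ y i) * fs (univ.filter fun v => c v = i) y =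
      |fs (univ.filter fun v => c v = i) y| := by
    intro y i
    by_cases h : 0 ≤ fs (univ.filter fun v => c v = i) y
    · simp only [σ, h, decide_true, sg_true, one_mul, abs_of_nonneg]
    · simp only [σ, h, decide_false, sg_false]
      rw [abs_of_neg (not_le.mp h)]; ring
  apply Finset.card_le_card_of_injOn
    (fun p : (Fin n → Bool) × (Fin N → Bool) =>
      ((fun i => xor (p.2 i) (σ p.1 i)), act c (fun i => xor (p.2 i) (σ p.1 i)) p.1))
  · intro p hp
    rw [Finset.mem_coe, Finset.mem_product, Finset.mem_filter] at hp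
    rw [Finset.mem_coe, Finset.mem_product, Finset.mem_filter]
    refine ⟨Finset.mem_univ _, Finset.mem_univ _, p.2, hp.2, ?_⟩
    refine hp.1.2.trans (le_of_eq ?_)
    rw [ip_comp]
    apply Finset.sum_congr rfl
    intro i _
    rw [fs_act, sg_xor]
    have h1 := sg_sq (p.2 i)
    have h2 := hσ p.1 i
    calc |fs (univ.filter fun v => c v = i) p.1|
        = sg (σ p.1 i) * fs (univ.filter fun v => c v = i) p.1 := h2.symm
      _ = (sg (p.2 i) * sg (p.2 i)) *
          (sg (σ p.1 i) * fs (univ.filter fun v => c v = i) p.1) := by rw [h1, one_mul]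
      _ = _ := by ring
  · intro p _ q _ h
    simp only [Prod.mk.injEq] at h
    obtain ⟨h1, h2⟩ := h
    rw [h1] at h2
    have h3 : p.1 = q.1 := by
      rw [← act_act c (fun i => xor (q.2 i) (σ q.1 i)) p.1, h2, act_act]
    refine Prod.ext h3 ?_
    funext i
    have h4 := congrFun h1 i
    rw [h3] at h4
    revert h4
    cases p.2 i <;> cases q.2 i <;> cases σ q.1 i <;> simp

/-! ### The counting for one colouring -/

/-- The sign vector `e` selects `t` classes which contain almost half of the vertices. -/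
def Valid {n N : ℕ} (k t : ℕ) (c : Fin n → Fin N) (e : Fin N → Bool) : Prop :=
  (univ.filter fun i => e i = true).card = t ∧
    k * t ≤ ∑ i ∈ univ.filter (fun i => e i = true), wt c i + t

/-- No `t` classes contain many vertices. -/
def Balanced {n N : ℕ} (k t : ℕ) (c : Fin n → Fin N) : Prop :=
  ∀ I : Finset (Fin N), I.card = t → ∑ i ∈ I, wt c i < k * t + k + 2 * t

open Classical in
theorem card_valid {n N : ℕ} (k t : ℕ) (hN : N = 2 * t + 1) (hn : n = k * N) (hkt : k ≤ t)
    (ht : 0 < t) (c : Fin n → Fin N) (hc : Balanced k t c) :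
    2 ^ N ≤ 8 * (t + 1) * (univ.filter fun e : Fin N → Bool => Valid k t c e).card := by
  have h1 := many_sets k t (wt c) (by rw [sum_wt, hn]) hkt ht hc
  have h2 : ((Finset.powersetCard t (univ : Finset (Fin N))).filter
        fun I => k * t ≤ ∑ i ∈ I, wt c i + t).card ≤
      (univ.filter fun e : Fin N → Bool => Valid k t c e).card := by
    apply Finset.card_le_card_of_injOn (fun I i => decide (i ∈ I))
    · intro I hI
      rw [Finset.mem_coe, Finset.mem_filter, Finset.mem_powersetCard] at hI
      rw [Finset.mem_coe, Finset.mem_filter]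
      have h : (univ.filter fun i => (fun i => decide (i ∈ I)) i = true) = I := by
        ext i; simp
      refine ⟨Finset.mem_univ _, ?_, ?_⟩
      · rw [h]; exact hI.1.2
      · rw [h]; exact hI.2
    · intro I _ J _ h
      ext i
      have := congrFun h i
      simpa using this
  have h3 : (Finset.powersetCard t (univ : Finset (Fin N))).card = (2 * t + 1).choose t := by
    rw [Finset.card_powersetCard, Finset.card_univ, Fintype.card_fin, hN]
  have h4 := pow_le_choose t
  have h5 : 2 ^ N = 2 ^ (2 * t + 1) := by rw [hN]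
  rw [h3] at h1
  rw [h5]
  calc 2 ^ (2 * t + 1) ≤ (2 * t + 2) * (2 * t + 1).choose t := h4
    _ ≤ (2 * t + 2) * (4 * (univ.filter fun e : Fin N → Bool => Valid k t c e).card) :=
        Nat.mul_le_mul_left _ (h1.trans (Nat.mul_le_mul_left _ h2))
    _ = _ := by ring

/-- `y` decides the colouring `c` positively after the list `L`. -/
def Good {n N : ℕ} (k t : ℕ) (a T : ℝ) (L : List (Fin n → Bool)) (y : Fin n → Bool)
    (c : Fin n → Fin N) : Prop :=
  ∃ e : Fin N → Bool, Valid k t c e ∧ (∀ y' ∈ L, |ip (fun v => e (c v)) y'| < a) ∧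
    T ≤ ip (fun v => e (c v)) y

open Classical in
theorem card_remaining {n N : ℕ} (k t r K : ℕ) (hN : N = 2 * t + 1) (hn : n = k * N)
    (hk : k = r ^ 2) (ht : t = k ^ 2) (h8 : 8 ≤ k)
    (hK : (K : ℝ) * 2 * Real.exp (-((r : ℝ) ^ 2 / 10240)) * (16 * (t + 1)) ≤ 1)
    (c : Fin n → Fin N) (hc : Balanced k t c) (L : List (Fin n → Bool)) (hL : L.length ≤ K) :
    (2 : ℝ) ^ N ≤ 16 * (t + 1) * ((univ.filter fun e : Fin N → Bool => Valid k t c e ∧
      ∀ y' ∈ L, |ip (fun v => e (c v)) y'| < (r : ℝ) * t / 8).card : ℝ) := by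
  have hkt : k ≤ t := by rw [ht]; nlinarith
  have ht0 : 0 < t := by omega
  have h1 := card_valid k t hN hn hkt ht0 c hc
  have h1' : (2 : ℝ) ^ N ≤ 8 * (t + 1) *
      ((univ.filter fun e : Fin N → Bool => Valid k t c e).card : ℝ) := by exact_mod_cast h1
  have htR : (0 : ℝ) < t := by exact_mod_cast ht0
  have hQ : ∑ i, (wt c i : ℝ) ^ 2 ≤ 80 * (t : ℝ) ^ 2 :=
    sum_sq k t hN (wt c) (by rw [sum_wt, hn]) ht.symm h8 hc
  -- one vector of the list
  have h2 : ∀ y : Fin n → Bool, ((univ.filter fun e : Fin N → Bool =>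
      (r : ℝ) * t / 8 ≤ |ip (fun v => e (c v)) y|).card : ℝ) ≤
      2 * (2 ^ N * Real.exp (-((r : ℝ) ^ 2 / 10240))) := by
    intro y
    have h3 := chernoff (fun i => fs (univ.filter fun v => c v = i) y) (80 * (t : ℝ) ^ 2)
      ((r : ℝ) * t / 8) (by positivity) (by positivity) (by
        refine le_trans (Finset.sum_le_sum fun i _ => ?_) hQ
        rw [← sq_abs]
        exact pow_le_pow_left₀ (abs_nonneg _) (abs_fs_le _ _) 2)
    have h4 : ((r : ℝ) * t / 8) ^ 2 / (2 * (80 * (t : ℝ) ^ 2)) = (r : ℝ) ^ 2 / 10240 := by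
      field_simp
      ring
    rw [h4] at h3
    simp only [ip_comp]
    exact h3
  set V := univ.filter fun e : Fin N → Bool => Valid k t c e with hV
  set R := univ.filter fun e : Fin N → Bool => Valid k t c e ∧
      ∀ y' ∈ L, |ip (fun v => e (c v)) y'| < (r : ℝ) * t / 8 with hR
  have h5 : V ⊆ R ∪ L.toFinset.biUnion fun y => univ.filter fun e : Fin N → Bool =>
      (r : ℝ) * t / 8 ≤ |ip (fun v => e (c v)) y| := by
    intro e he
    rw [Finset.mem_union, Finset.mem_biUnion]
    by_cases h : ∀ y' ∈ L, |ip (fun v => e (c v)) y'| < (r : ℝ) * t / 8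
    · left
      rw [hR, Finset.mem_filter]
      exact ⟨Finset.mem_univ _, (Finset.mem_filter.mp he).2, h⟩
    · right
      push Not at h
      obtain ⟨y, hy, h⟩ := h
      exact ⟨y, List.mem_toFinset.mpr hy, Finset.mem_filter.mpr ⟨Finset.mem_univ _, h⟩⟩
  have h6 : (V.card : ℝ) ≤ R.card + K * (2 * (2 ^ N * Real.exp (-((r : ℝ) ^ 2 / 10240)))) := by
    have h7 : V.card ≤ R.card + ∑ y ∈ L.toFinset, (univ.filter fun e : Fin N → Bool =>
      (r : ℝ) * t / 8 ≤ |ip (fun v => e (c v)) y|).card :=
      (Finset.card_le_card h5).trans ((Finset.card_union_le _ _).trans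
        (Nat.add_le_add_left Finset.card_biUnion_le _))
    have h7' : (V.card : ℝ) ≤ R.card + ∑ y ∈ L.toFinset, ((univ.filter fun e : Fin N → Bool =>
      (r : ℝ) * t / 8 ≤ |ip (fun v => e (c v)) y|).card : ℝ) := by exact_mod_cast h7
    refine h7'.trans (add_le_add_right ?_ _)
    refine (Finset.sum_le_sum fun y _ => h2 y).trans ?_
    rw [Finset.sum_const, nsmul_eq_mul]
    apply mul_le_mul_of_nonneg_right _ (by positivity)
    exact_mod_cast (List.toFinset_card_le L).trans hL
  have h8 : (0 : ℝ) < 2 ^ N := by positivity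
  have h9 : 16 * ((t : ℝ) + 1) * (K * (2 * (2 ^ N * Real.exp (-((r : ℝ) ^ 2 / 10240))))) ≤
      2 ^ N := by
    calc 16 * ((t : ℝ) + 1) * (K * (2 * (2 ^ N * Real.exp (-((r : ℝ) ^ 2 / 10240)))))
        = ((K : ℝ) * 2 * Real.exp (-((r : ℝ) ^ 2 / 10240)) * (16 * (t + 1))) * 2 ^ N := by ring
      _ ≤ 1 * 2 ^ N := mul_le_mul_of_nonneg_right hK h8.le
      _ = 2 ^ N := one_mul _
  have h10 : 16 * ((t : ℝ) + 1) * V.card ≤ 16 * ((t : ℝ) + 1) *
      (R.card + K * (2 * (2 ^ N * Real.exp (-((r : ℝ) ^ 2 / 10240))))) :=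
    mul_le_mul_of_nonneg_left h6 (by positivity)
  nlinarith

open Classical in
theorem card_large {n N : ℕ} (k t r : ℕ) (hN : N = 2 * t + 1) (hn : n = k * N)
    (hk : k = r ^ 2) (ht : t = k ^ 2) (hr : 128 ≤ r)
    (c : Fin n → Fin N) (hc : Balanced k t c) (T : ℝ) (hT : T ≤ (r : ℝ) * t / 4) :
    (2 : ℝ) ^ n ≤ 24 * r * ((univ.filter fun y : Fin n → Bool =>
      T ≤ ∑ i, |fs (univ.filter fun v => c v = i) y|).card : ℝ) := by
  have h8 : 8 ≤ k := by rw [hk]; nlinarith
  have ht2 : 2 ≤ t := by rw [ht]; nlinarith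
  have hG := many_classes k t hN (wt c) (by rw [sum_wt, hn]) h8 ht2 hc
  set G := univ.filter fun i => k ≤ 2 * wt c i with hGdef
  set S : (Fin n → Bool) → ℝ := fun y => ∑ i, |fs (univ.filter fun v => c v = i) y| with hS
  set Y := univ.filter fun y : Fin n → Bool => T ≤ S y with hY
  have hrR : (128 : ℝ) ≤ r := by exact_mod_cast hr
  have htR : (2 : ℝ) ≤ t := by exact_mod_cast ht2
  -- lower bound for the mean
  have h1 : 3 / 8 * (r : ℝ) * 2 ^ n * (t + 1) ≤ ∑ y, S y := by
    rw [hS, Finset.sum_comm]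
    calc 3 / 8 * (r : ℝ) * 2 ^ n * (t + 1) ≤ 3 / 8 * (r : ℝ) * 2 ^ n * G.card := by
          apply mul_le_mul_of_nonneg_left _ (by positivity)
          exact_mod_cast hG
      _ = ∑ _i ∈ G, 3 / 8 * (r : ℝ) * 2 ^ n := by
          rw [Finset.sum_const, nsmul_eq_mul, mul_comm]
      _ ≤ ∑ i ∈ G, ∑ y, |fs (univ.filter fun v => c v = i) y| := by
          apply Finset.sum_le_sum
          intro i hi
          apply moment1 _ _ (by positivity)
          have := (Finset.mem_filter.mp hi).2
          rw [hk] at this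
          unfold wt at this
          exact_mod_cast this
      _ ≤ ∑ i, ∑ y, |fs (univ.filter fun v => c v = i) y| :=
          Finset.sum_le_sum_of_subset_of_nonneg (Finset.subset_univ _)
            (fun _ _ _ => Finset.sum_nonneg fun _ _ => abs_nonneg _)
  -- upper bound for the mean
  have hSn : ∀ y, S y ≤ n := by
    intro y
    calc S y ≤ ∑ i, (wt c i : ℝ) := Finset.sum_le_sum fun i _ => abs_fs_le _ _
      _ = n := by exact_mod_cast sum_wt c
  have h2 : ∑ y, S y ≤ Y.card * (n : ℝ) + 2 ^ n * ((r : ℝ) * t / 4) := by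
    rw [← Finset.sum_filter_add_sum_filter_not univ (fun y => T ≤ S y)]
    apply add_le_add
    · refine (Finset.sum_le_card_nsmul _ _ (n : ℝ) fun y _ => hSn y).trans ?_
      rw [nsmul_eq_mul]
    · refine (Finset.sum_le_card_nsmul _ _ ((r : ℝ) * t / 4) fun y hy => ?_).trans ?_
      · have := (Finset.mem_filter.mp hy).2
        push Not at this
        linarith
      · rw [nsmul_eq_mul]
        apply mul_le_mul_of_nonneg_right _ (by positivity)
        have h3 := Finset.card_filter_le (univ : Finset (Fin n → Bool)) (fun y => ¬ T ≤ S y)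
        have h4 : ((univ : Finset (Fin n → Bool)).card : ℝ) = 2 ^ n := card_fun n
        rw [← h4]
        exact_mod_cast h3
  have hnR : (n : ℝ) = (r : ℝ) ^ 2 * (2 * t + 1) := by
    rw [hn, hN, hk]; push_cast; ring
  have h3 : (0 : ℝ) < 2 ^ n := by positivity
  have h4 : (r : ℝ) * t / 8 * 2 ^ n ≤ Y.card * (n : ℝ) := by nlinarith
  have h5 : (n : ℝ) ≤ 3 * (r : ℝ) ^ 2 * t := by
    rw [hnR]; nlinarith [sq_nonneg (r : ℝ)]
  have h6 : (Y.card : ℝ) * n ≤ Y.card * (3 * (r : ℝ) ^ 2 * t) :=
    mul_le_mul_of_nonneg_left h5 (Nat.cast_nonneg _)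
  have h7 : (r : ℝ) * t * 2 ^ n ≤ (r : ℝ) * t * (24 * r * Y.card) := by nlinarith
  have h8 : (0 : ℝ) < (r : ℝ) * t := by positivity
  exact le_of_mul_le_mul_left h7 h8

open Classical in
theorem card_good {n N : ℕ} (k t r K : ℕ) (hN : N = 2 * t + 1) (hn : n = k * N)
    (hk : k = r ^ 2) (ht : t = k ^ 2) (hr : 128 ≤ r)
    (hK : (K : ℝ) * 2 * Real.exp (-((r : ℝ) ^ 2 / 10240)) * (16 * (t + 1)) ≤ 1)
    (c : Fin n → Fin N) (hc : Balanced k t c) (L : List (Fin n → Bool)) (hL : L.length ≤ K)
    (T : ℝ) (hT : T ≤ (r : ℝ) * t / 4) :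
    2 ^ n ≤ 384 * r * (t + 1) *
      (univ.filter fun y : Fin n → Bool => Good k t ((r : ℝ) * t / 8) T L y c).card := by
  have h8 : 8 ≤ k := by rw [hk]; nlinarith
  have h1 := card_remaining k t r K hN hn hk ht h8 hK c hc L hL
  have h2 := card_large k t r hN hn hk ht hr c hc T hT
  have h3 := orbit c T (univ.filter fun e : Fin N → Bool => Valid k t c e ∧
      ∀ y' ∈ L, |ip (fun v => e (c v)) y'| < (r : ℝ) * t / 8)
  replace h3 : (univ.filter fun y : Fin n → Bool =>
      T ≤ ∑ i, |fs (univ.filter fun v => c v = i) y|).card *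
      (univ.filter fun e : Fin N → Bool => Valid k t c e ∧
      ∀ y' ∈ L, |ip (fun v => e (c v)) y'| < (r : ℝ) * t / 8).card ≤ 2 ^ N *
      (univ.filter fun y : Fin n → Bool => Good k t ((r : ℝ) * t / 8) T L y c).card := by
    refine le_trans h3 (Nat.mul_le_mul_left _ (Finset.card_le_card ?_))
    intro y hy
    rw [Finset.mem_filter] at hy ⊢
    obtain ⟨_, e, h5, h7⟩ := hy
    have h6 := (Finset.mem_filter.mp h5).2
    exact ⟨Finset.mem_univ _, e, h6.1, h6.2, h7⟩
  set g := (univ.filter fun y : Fin n → Bool => Good k t ((r : ℝ) * t / 8) T L y c).card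
  set R := (univ.filter fun e : Fin N → Bool => Valid k t c e ∧
      ∀ y' ∈ L, |ip (fun v => e (c v)) y'| < (r : ℝ) * t / 8).card
  set Y := (univ.filter fun y : Fin n → Bool =>
      T ≤ ∑ i, |fs (univ.filter fun v => c v = i) y|).card
  have h3' : (Y : ℝ) * R ≤ 2 ^ N * g := by exact_mod_cast h3
  have hNpos : (0 : ℝ) < 2 ^ N := by positivity
  have h5 : (2 : ℝ) ^ n * 2 ^ N ≤ (24 * r * Y) * (16 * (t + 1) * R) :=
    mul_le_mul h2 h1 hNpos.le (by positivity)
  have h6 : (2 : ℝ) ^ N * 2 ^ n ≤ 2 ^ N * (384 * r * (t + 1) * g) := by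
    calc (2 : ℝ) ^ N * 2 ^ n = 2 ^ n * 2 ^ N := mul_comm _ _
      _ ≤ (24 * r * Y) * (16 * (t + 1) * R) := h5
      _ = 384 * r * (t + 1) * (Y * R) := by ring
      _ ≤ 384 * r * (t + 1) * (2 ^ N * g) :=
          mul_le_mul_of_nonneg_left h3' (by positivity)
      _ = 2 ^ N * (384 * r * (t + 1) * g) := by ring
  have h7 := le_of_mul_le_mul_left h6 hNpos
  exact_mod_cast h7

/-! ### The greedy choice of the list -/

open Classical in
theorem exists_next {n N : ℕ} (M : ℕ) (B : Finset (Fin n → Fin N))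
    (P : (Fin n → Bool) → (Fin n → Fin N) → Prop)
    (h : ∀ c ∈ B, 2 ^ n ≤ M * (univ.filter fun y : Fin n → Bool => P y c).card) :
    ∃ y, B.card ≤ M * (B.filter fun c => P y c).card := by
  by_contra hcon
  push Not at hcon
  have h1 : ∑ y : Fin n → Bool, M * (B.filter fun c => P y c).card =
      ∑ c ∈ B, M * (univ.filter fun y : Fin n → Bool => P y c).card := by
    rw [← Finset.mul_sum, ← Finset.mul_sum]
    congr 1
    simp only [Finset.card_filter]
    exact Finset.sum_comm
  have h2 : ∑ c ∈ B, 2 ^ n ≤ ∑ c ∈ B, M * (univ.filter fun y : Fin n → Bool => P y c).card :=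
    Finset.sum_le_sum h
  have h3 : ∑ y : Fin n → Bool, M * (B.filter fun c => P y c).card <
      ∑ _y : Fin n → Bool, B.card :=
    Finset.sum_lt_sum_of_nonempty Finset.univ_nonempty (fun y _ => hcon y)
  rw [Finset.sum_const, smul_eq_mul] at h2 h3
  have h4 : (univ : Finset (Fin n → Bool)).card = 2 ^ n := by simp
  rw [h4] at h3
  rw [h1] at h3
  have h5 := lt_of_le_of_lt h2 h3
  rw [mul_comm] at h5
  exact lt_irrefl _ h5

/-- The list `L` settles the colouring `c`. -/
def Settled {n N : ℕ} (k t : ℕ) (a T : ℝ) (L : List (Fin n → Bool)) (c : Fin n → Fin N) : Prop :=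
  ∃ e : Fin N → Bool, Valid k t c e ∧ Win a T L (fun v => e (c v))

open Classical in
theorem greedy {n N : ℕ} (k t r K : ℕ) (hN : N = 2 * t + 1) (hn : n = k * N)
    (hk : k = r ^ 2) (ht : t = k ^ 2) (hr : 128 ≤ r)
    (hK : (K : ℝ) * 2 * Real.exp (-((r : ℝ) ^ 2 / 10240)) * (16 * (t + 1)) ≤ 1)
    (T : ℝ) (hT : T ≤ (r : ℝ) * t / 4) (m : ℕ) (hm : m ≤ K) :
    ∃ L : List (Fin n → Bool), L.length = m ∧
      ((univ.filter fun c : Fin n → Fin N => Balanced k t c ∧
        ¬ Settled k t ((r : ℝ) * t / 8) T L c).card : ℝ) ≤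
      (1 - 1 / (384 * r * (t + 1))) ^ m * (N : ℝ) ^ n := by
  have hM : (0 : ℝ) < 384 * r * (t + 1) := by
    have : (128 : ℝ) ≤ r := by exact_mod_cast hr
    positivity
  induction m with
  | zero =>
    refine ⟨[], rfl, ?_⟩
    rw [pow_zero, one_mul]
    have h1 := Finset.card_filter_le (univ : Finset (Fin n → Fin N)) (fun c => Balanced k t c ∧
        ¬ Settled k t ((r : ℝ) * t / 8) T [] c)
    have h2 : (univ : Finset (Fin n → Fin N)).card = N ^ n := by simp
    rw [h2] at h1
    exact_mod_cast h1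
  | succ m ih =>
    obtain ⟨L, hL, hcard⟩ := ih (by omega)
    set B := univ.filter fun c : Fin n → Fin N => Balanced k t c ∧
        ¬ Settled k t ((r : ℝ) * t / 8) T L c with hB
    obtain ⟨y, hy⟩ := exists_next (384 * r * (t + 1)) B
      (fun y c => Good k t ((r : ℝ) * t / 8) T L y c) (by
        intro c hc
        rw [hB, Finset.mem_filter] at hc
        exact card_good k t r K hN hn hk ht hr hK c hc.2.1 L (by omega) T hT)
    refine ⟨L ++ [y], by simp [hL], ?_⟩
    have h1 : (univ.filter fun c : Fin n → Fin N => Balanced k t c ∧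
        ¬ Settled k t ((r : ℝ) * t / 8) T (L ++ [y]) c) ⊆
        B.filter fun c => ¬ Good k t ((r : ℝ) * t / 8) T L y c := by
      intro c hc
      rw [Finset.mem_filter] at hc
      rw [Finset.mem_filter, hB, Finset.mem_filter]
      refine ⟨⟨Finset.mem_univ _, hc.2.1, ?_⟩, ?_⟩
      · rintro ⟨e, he1, he2⟩
        exact hc.2.2 ⟨e, he1, win_mono _ _ _ _ _ he2⟩
      · rintro ⟨e, he1, he2, he3⟩
        exact hc.2.2 ⟨e, he1, win_append _ _ _ _ _ he2 he3⟩
    have h2 : (B.filter fun c => Good k t ((r : ℝ) * t / 8) T L y c).card +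
        (B.filter fun c => ¬ Good k t ((r : ℝ) * t / 8) T L y c).card = B.card :=
      Finset.card_filter_add_card_filter_not _
    have h3 := Finset.card_le_card h1
    have h4 : (B.card : ℝ) ≤ (384 * r * (t + 1)) *
        ((B.filter fun c => Good k t ((r : ℝ) * t / 8) T L y c).card : ℝ) := by
      exact_mod_cast hy
    have h5 : (((B.filter fun c => Good k t ((r : ℝ) * t / 8) T L y c).card : ℝ)) +
        ((B.filter fun c => ¬ Good k t ((r : ℝ) * t / 8) T L y c).card : ℝ) = B.card := by
      exact_mod_cast h2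
    have h6 : ((univ.filter fun c : Fin n → Fin N => Balanced k t c ∧
        ¬ Settled k t ((r : ℝ) * t / 8) T (L ++ [y]) c).card : ℝ) ≤
        ((B.filter fun c => ¬ Good k t ((r : ℝ) * t / 8) T L y c).card : ℝ) := by
      exact_mod_cast h3
    have h7 : (B.card : ℝ) / (384 * r * (t + 1)) ≤
        ((B.filter fun c => Good k t ((r : ℝ) * t / 8) T L y c).card : ℝ) := by
      rw [div_le_iff₀ hM, mul_comm]; exact h4
    have h8 : (0 : ℝ) ≤ 1 - 1 / (384 * r * (t + 1)) := by
      have h9 : (1 : ℝ) ≤ 384 * r * (t + 1) := by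
        have h10 : (128 : ℝ) ≤ r := by exact_mod_cast hr
        have h11 : (0 : ℝ) ≤ t := Nat.cast_nonneg _
        nlinarith
      have := div_le_one_of_le₀ h9 hM.le
      linarith
    calc ((univ.filter fun c : Fin n → Fin N => Balanced k t c ∧
          ¬ Settled k t ((r : ℝ) * t / 8) T (L ++ [y]) c).card : ℝ)
        ≤ (1 - 1 / (384 * r * (t + 1))) * B.card := by
          have : (1 - 1 / (384 * (r : ℝ) * (t + 1))) * B.card =
            B.card - (B.card : ℝ) / (384 * r * (t + 1)) := by ring
          rw [this]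
          linarith
      _ ≤ (1 - 1 / (384 * r * (t + 1))) *
          ((1 - 1 / (384 * r * (t + 1))) ^ m * (N : ℝ) ^ n) :=
          mul_le_mul_of_nonneg_left hcard h8
      _ = _ := by rw [pow_succ]; ring

/-- **The hypergraph.** -/
theorem exists_hypergraph {n N : ℕ} (k t r K : ℕ) (hN : N = 2 * t + 1) (hn : n = k * N)
    (hk : k = r ^ 2) (ht : t = k ^ 2) (hr : 256 ≤ r)
    (hK : (K : ℝ) * 2 * Real.exp (-((r : ℝ) ^ 2 / 10240)) * (16 * (t + 1)) ≤ 1)
    (hK2 : (1 - 1 / (384 * (r : ℝ) * (t + 1))) ^ K * (N : ℝ) ^ n < 1) :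
    ∃ H : Finset (Finset (Fin n)),
      (∀ e ∈ H, ∀ f ∈ H, e ≠ f → t ≤ (e ∩ f).card) ∧
      ∀ col : Fin n → Fin N, ∃ e ∈ H, t + 1 ≤ e.card ∧ (e.image col).card ≤ t := by
  classical
  have hkbig : 65536 ≤ k := by rw [hk]; nlinarith
  have htbig : 65536 * k ≤ t := by rw [ht]; nlinarith
  have hrR : (256 : ℝ) ≤ r := by exact_mod_cast hr
  have hkR : (65536 : ℝ) ≤ k := by exact_mod_cast hkbig
  have htR : (65536 : ℝ) * k ≤ t := by exact_mod_cast htbig
  set a : ℝ := (r : ℝ) * t / 8 with ha
  set d : ℝ := 4 * t + k with hd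
  have hT : a + 2 * d ≤ (r : ℝ) * t / 4 := by
    rw [ha, hd]; nlinarith
  obtain ⟨L, _, hL⟩ := greedy k t r K hN hn hk ht (by omega) hK (a + 2 * d) hT K le_rfl
  have hall : ∀ c : Fin n → Fin N, Balanced k t c → Settled k t a (a + 2 * d) L c := by
    intro c hc
    by_contra hcon
    have h1 : 0 < (univ.filter fun c : Fin n → Fin N => Balanced k t c ∧
        ¬ Settled k t ((r : ℝ) * t / 8) (a + 2 * d) L c).card :=
      Finset.card_pos.mpr ⟨c, Finset.mem_filter.mpr ⟨Finset.mem_univ _, hc, hcon⟩⟩
    have h2 : (1 : ℝ) ≤ ((univ.filter fun c : Fin n → Fin N => Balanced k t c ∧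
        ¬ Settled k t ((r : ℝ) * t / 8) (a + 2 * d) L c).card : ℝ) := by exact_mod_cast h1
    linarith
  have hnk : n = k * (2 * t + 1) := by rw [hn, hN]
  let Small : Finset (Fin n) → Prop := fun A => k * t ≤ A.card + t ∧ Win a (a + 2 * d) L (ch A)
  let Large : Finset (Fin n) → Prop := fun A => k * t + k + 2 * t ≤ A.card
  refine ⟨univ.filter fun A => Small A ∨ Large A, ?_, ?_⟩
  · have hunion : ∀ A B : Finset (Fin n), A.card + B.card ≤ n + (A ∩ B).card := by
      intro A B
      have h1 := Finset.card_union_add_card_inter A B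
      have h2 : (A ∪ B).card ≤ n := by simpa using Finset.card_le_univ (A ∪ B)
      omega
    have hSL : ∀ A B : Finset (Fin n), k * t ≤ A.card + t → Large B → t ≤ (A ∩ B).card := by
      intro A B hA hB
      have h1 := hunion A B
      have h2 : k * (2 * t + 1) = k * t + k * t + k := by ring
      have h3 : k * t + k + 2 * t ≤ B.card := hB
      have h4 : n = k * t + k * t + k := hnk.trans h2
      omega
    intro A hA B hB _
    have hA := (Finset.mem_filter.mp hA).2
    have hB := (Finset.mem_filter.mp hB).2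
    rcases hA with hA | hA
    · rcases hB with hB | hB
      · by_contra hcon
        push Not at hcon
        apply win_disjoint a d (a + 2 * d) rfl (by
          have : 0 ≤ a := by positivity
          have : 0 < d := by positivity
          linarith) (ch A) (ch B) _ L hA.2 hB.2
        intro y
        refine (ip_add _ _ _).trans ?_
        have h1 := card_agree A B
        have h2 : k * (2 * t + 1) = k * t + k * t + k := by ring
        have h6 : n = k * t + k * t + k := hnk.trans h2
        have h3 : (univ.filter fun v => ch A v = ch B v).card ≤ 4 * t + k := by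
          have h4 := hA.1
          have h5 := hB.1
          omega
        have h4 : ((univ.filter fun v => ch A v = ch B v).card : ℝ) ≤ 4 * t + k := by
          exact_mod_cast h3
        rw [hd]
        linarith
      · exact hSL A B hA.1 hB
    · rcases hB with hB | hB
      · rw [Finset.inter_comm]; exact hSL B A hB.1 hA
      · apply hSL A B _ hB
        have : k * t + k + 2 * t ≤ A.card := hA
        omega
  · intro col
    by_cases hc : Balanced k t col
    · obtain ⟨e, he1, he2⟩ := hall col hc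
      set I := univ.filter fun i => e i = true with hI
      have hA : (univ.filter fun v => e (col v) = true) = univ.filter fun v => col v ∈ I := by
        ext v; simp [hI]
      have hcard : (univ.filter fun v => e (col v) = true).card = ∑ i ∈ I, wt col i := by
        rw [hA, card_union_classes]
      refine ⟨univ.filter fun v => e (col v) = true, ?_, ?_, ?_⟩
      · rw [Finset.mem_filter]
        refine ⟨Finset.mem_univ _, Or.inl ⟨?_, ?_⟩⟩
        · rw [hcard]; exact he1.2
        · have : ch (univ.filter fun v => e (col v) = true) = fun v => e (col v) := by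
            funext v; simp [ch]
          rw [this]; exact he2
      · rw [hcard]
        have h1 : k * t ≤ ∑ i ∈ I, wt col i + t := he1.2
        have h2 : 65536 * t ≤ k * t := Nat.mul_le_mul_right _ hkbig
        omega
      · have : (univ.filter fun v => e (col v) = true).image col ⊆ I := by
          intro i hi
          rw [Finset.mem_image] at hi
          obtain ⟨v, hv, rfl⟩ := hi
          exact Finset.mem_filter.mpr ⟨Finset.mem_univ _, (Finset.mem_filter.mp hv).2⟩
        exact (Finset.card_le_card this).trans he1.1.le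
    · unfold Balanced at hc
      push Not at hc
      obtain ⟨I, hI, hIw⟩ := hc
      refine ⟨univ.filter fun v => col v ∈ I, ?_, ?_, ?_⟩
      · rw [Finset.mem_filter]
        refine ⟨Finset.mem_univ _, Or.inr ?_⟩
        show k * t + k + 2 * t ≤ _
        rw [card_union_classes]; exact hIw
      · rw [card_union_classes]
        omega
      · have : (univ.filter fun v => col v ∈ I).image col ⊆ I := by
          intro i hi
          rw [Finset.mem_image] at hi
          obtain ⟨v, hv, rfl⟩ := hi
          exact (Finset.mem_filter.mp hv).2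
        exact (Finset.card_le_card this).trans hI.le

end Pool.Agent.H33.StrongBad
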