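import Mathlib
import Pool.Agent.H33.StrongBad.Main

set_option autoImplicit false

namespace Pool.Agent.H33.StrongBad

open Finset

theorem exp_bound : Real.exp (-((2048 : ℝ) ^ 2 / 10240)) ≤ (1 / 2) ^ 200 := by
  have h1 : Real.exp (-((2048 : ℝ) ^ 2 / 10240)) ≤ Real.exp (-(200 : ℝ)) := by
    apply Real.exp_le_exp.mpr
    norm_num
  have h2 : Real.exp (-(200 : ℝ)) = Real.exp (-1) ^ 200 := by
    rw [← Real.exp_nat_mul]
    norm_num
  have h3 : Real.exp (-1) ≤ 1 / 2 := by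
    rw [Real.exp_neg, one_div]
    apply inv_anti₀ (by norm_num)
    have := Real.exp_one_gt_d9
    linarith
  rw [h2] at h1
  exact h1.trans (pow_le_pow_left₀ (Real.exp_pos _).le h3 200)

/-- The number of vertices. -/
theorem main : ∃ t n : ℕ, 1 ≤ t ∧ ∃ H : Finset (Finset (Fin n)),
      (∀ e ∈ H, ∀ f ∈ H, e ≠ f → t ≤ (e ∩ f).card) ∧
      ∀ col : Fin n → Fin (2 * (t + 1) - 1),
        ∃ e ∈ H, t + 1 ≤ e.card ∧ (e.image col).card ≤ t := by
  obtain ⟨t, ht⟩ : ∃ t : ℕ, t = 2 ^ 44 := ⟨_, rfl⟩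
  obtain ⟨k, hk⟩ : ∃ k : ℕ, k = 2 ^ 22 := ⟨_, rfl⟩
  obtain ⟨r, hr⟩ : ∃ r : ℕ, r = 2048 := ⟨_, rfl⟩
  obtain ⟨K, hK⟩ : ∃ K : ℕ, K = 2 ^ 150 := ⟨_, rfl⟩
  obtain ⟨n, hn⟩ : ∃ n : ℕ, n = k * (2 * (t + 1) - 1) := ⟨_, rfl⟩
  refine ⟨t, n, by rw [ht]; norm_num, ?_⟩
  apply exists_hypergraph k t r K (by omega) hn (by rw [hk, hr]; norm_num)
    (by rw [hk, ht]; norm_num) (by omega)
  · have hKR : (K : ℝ) = 2 ^ 150 := by rw [hK]; norm_num
    have hrR : (r : ℝ) = 2048 := by rw [hr]; norm_num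
    have htR : (t : ℝ) = 2 ^ 44 := by rw [ht]; norm_num
    rw [hKR, hrR, htR]
    calc (2 : ℝ) ^ 150 * 2 * Real.exp (-(2048 ^ 2 / 10240)) * (16 * (2 ^ 44 + 1))
        ≤ (2 : ℝ) ^ 150 * 2 * (1 / 2) ^ 200 * (16 * (2 ^ 44 + 1)) := by
          apply mul_le_mul_of_nonneg_right _ (by positivity)
          exact mul_le_mul_of_nonneg_left exp_bound (by positivity)
      _ ≤ 1 := by norm_num
  · -- (1 - 1/M)^K * N^n < 1
    have hN1 : 2 * (t + 1) - 1 ≤ 2 ^ 46 := by rw [ht]; norm_num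
    have hN2 : ((2 * (t + 1) - 1 : ℕ) : ℝ) ≤ Real.exp 46 := by
      have h1 : ((2 * (t + 1) - 1 : ℕ) : ℝ) ≤ 2 ^ 46 := by exact_mod_cast hN1
      have h2 : (2 : ℝ) ^ 46 ≤ Real.exp 46 := by
        have h3 : Real.exp (46 : ℝ) = Real.exp 1 ^ 46 := by
          rw [← Real.exp_nat_mul]; norm_num
        rw [h3]
        apply pow_le_pow_left₀ (by norm_num)
        have := Real.exp_one_gt_d9
        linarith
      exact h1.trans h2
    have hM : (0 : ℝ) < 384 * r * (t + 1) := by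
      rw [hr]; positivity
    have h1 : (1 - 1 / (384 * (r : ℝ) * (t + 1))) ^ K ≤
        Real.exp (-(K / (384 * (r : ℝ) * (t + 1)))) := by
      have h2 : 1 - 1 / (384 * (r : ℝ) * (t + 1)) ≤
          Real.exp (-(1 / (384 * (r : ℝ) * (t + 1)))) := by
        have := Real.add_one_le_exp (-(1 / (384 * (r : ℝ) * (t + 1))))
        linarith
      have h3 : (0 : ℝ) ≤ 1 - 1 / (384 * (r : ℝ) * (t + 1)) := by
        have h4 : (1 : ℝ) ≤ 384 * r * (t + 1) := by
          rw [hr]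
          have : (0 : ℝ) ≤ t := Nat.cast_nonneg _
          push_cast
          linarith
        have := div_le_one_of_le₀ h4 hM.le
        linarith
      refine (pow_le_pow_left₀ h3 h2 K).trans (le_of_eq ?_)
      rw [← Real.exp_nat_mul]
      congr 1
      ring
    have h2 : ((2 * (t + 1) - 1 : ℕ) : ℝ) ^ n ≤ Real.exp (n * 46) := by
      rw [Real.exp_nat_mul]
      exact pow_le_pow_left₀ (Nat.cast_nonneg _) hN2 n
    calc (1 - 1 / (384 * (r : ℝ) * (t + 1))) ^ K * ((2 * (t + 1) - 1 : ℕ) : ℝ) ^ n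
        ≤ Real.exp (-(K / (384 * (r : ℝ) * (t + 1)))) * Real.exp (n * 46) :=
          mul_le_mul h1 h2 (by positivity) (Real.exp_pos _).le
      _ = Real.exp (-(K / (384 * (r : ℝ) * (t + 1))) + n * 46) := by rw [Real.exp_add]
      _ < 1 := by
          rw [Real.exp_lt_one_iff]
          have h3 : (n : ℝ) * 46 < K / (384 * (r : ℝ) * (t + 1)) := by
            rw [lt_div_iff₀ hM]
            have h4 : n * 46 * (384 * r * (t + 1)) < K := by
              rw [hn, hk, ht, hr, hK]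
              norm_num
            exact_mod_cast h4
          linarith

end Pool.Agent.H33.StrongBad
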